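import Pool.Agent.N506.Gen

/-!
Closure properties of the class of the groups with injective rational assembly maps in L-theory.

`lgrp ε T` is the functor `G ↦ L₀(ℤ[G × T]; ε) ⊗ ℚ` (nonsingular `ε`-quadratic forms on finitely
generated projective modules modulo hyperbolic ones), for a fixed group `T`, `hq j` is the functor
`G ↦ H_j(G; ℚ)`, and `α_{j,i} : H_j(G; ℚ) → L₀(ℤ[G × T]; ε) ⊗ ℚ`, `i ∈ I_j`, is any family of
transformations natural in the group `G` (for instance the components of the rational assembly maps;
the groups `L_m(ℤ[G]) ⊗ ℚ` are direct summands of `L₀(ℤ[G × T]; ε) ⊗ ℚ` for suitable `T = ℤ^k` and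
`ε`).

`𝓑` is any class of groups which contains the groups `ℤ^n` and is closed under direct products of two
groups. If the sum of all the `α_{j,i}` is injective on all groups of `𝓑`, then it is injective on all
groups of the smallest class `Gen 𝓑` which contains `𝓑` and the groups `F / [R, R]`, for all free
groups `F` and all normal subgroups `R`, and is closed under direct products, overgroups of finite
index, graph products, restricted wreath products `K ≀_V Γ` such that the pointwise stabilizers in `Γ`
of the finite subsets of `V` are in the class, semidirect products with a system of supports, directed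
colimits along arbitrary homomorphisms, and detection of rational homology classes by homomorphisms
to groups of the class.
-/

namespace Pool.Agent.Results.MP_c13a79_gt.ClosureProperties

open CategoryTheory Pool.Agent.Y483 Pool.Agent.Y75.MQ Pool.Agent.N506

theorem result (ε : ℤˣ) (T : Type) [Group T] (I : ℕ → Type)
    (α : ∀ j : ℕ, I j → (hq j ⟶ lgrp ε T)) (𝓑 : GrpCat.{0} → Prop) (hZ : ∀ n, 𝓑 (zn n))
    (hprod : ∀ B B' : GrpCat.{0}, 𝓑 B → 𝓑 B' → 𝓑 (GrpCat.of (B × B')))
    (hα : ∀ B : GrpCat.{0}, 𝓑 B → kerFam (fun p : Σ j, I j => α p.1 p.2) B = ⊥)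
    (G : Type) [Group G] (hG : Gen 𝓑 G) :
    kerFam (fun p : Σ j, I j => α p.1 p.2) (GrpCat.of G) = ⊥ :=
  gen_rdet (hasPT_lfun ε) (cont_lfun ε) hZ hprod hG T I α hα

end Pool.Agent.Results.MP_c13a79_gt.ClosureProperties
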