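import Pool.Agent.N510.CT.PC

set_option autoImplicit false

/-! Quadratic Poincaré complexes over the integral group ring `ℤG` of a group without elements of
order two, with an orientation character, such that the boundary operator of the mapping cone of the
duality map has `ℓ²`-operator norm at most `3 / √2` (the bound included), are sums of quadratic
Poincaré complexes induced from virtually cyclic subgroups. -/

namespace Pool.Agent.Results.MP_c13a79_gt.CriticalPoincareComplexes

open TH57.Thr TH6.LF TH6.PF TH6.CX TH6.CR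

/-- Let `G` be a group without elements of order two (for instance a Poincaré duality group), `w` an
orientation character and `(d, ψ)` a based `n`-dimensional quadratic Poincaré complex over `ℤG` such
that the boundary operator of the cone of the duality map has norm at most `3 / √2`. There are
virtually cyclic subgroups `C b` of `G` (cyclic ones if `G` is torsion-free), a division `ρ` of the
basis into blocks and `u i ∈ G`, such that after the change of basis by `u` the boundary operator is in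
the blocks over the rings `ℤ[C b]`, and the quadratic structure differs by the boundary of `χ` from a
quadratic structure `ψ'` in these blocks, which is Poincaré by a contraction in these blocks. -/
theorem result (G : Type) [Group G]
    (h2 : ∀ g : G, g * g = 1 → g = 1) (w : G →* ℤˣ)
    (ι : Type) [Fintype ι] [DecidableEq ι] (deg : ι → ℕ) (n : ℕ)
    (d : Matrix ι ι (MonoidAlgebra ℤ G)) (ψ : ℕ → Matrix ι ι (MonoidAlgebra ℤ G))
    (hψ : TH6.CR.IsQuadratic w deg n d ψ)
    (hP : ∃ t, IsCt (coneDeg deg n) (TH6.CR.cone w deg n d ψ) t)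
    (c : ℝ) (hc0 : 0 < c) (hc : c ^ 2 ≤ 9 / 2)
    (hthin : NormLE (TH6.CR.cone w deg n d ψ) c) :
    ∃ (ρ : ι → ι ⊕ ι) (u : ι → G) (C : ι ⊕ ι → Subgroup G)
      (ψ' χ : ℕ → Matrix ι ι (MonoidAlgebra ℤ G)),
      (∀ b, IsVC (C b)) ∧
      ((∀ g : G, ∀ k : ℕ, 0 < k → g ^ k = 1 → g = 1) → ∀ b, IsCyclic (C b)) ∧
      TH6.CR.InBlocks ρ C ((dmU ℤ u).val * d * (dmU ℤ u)⁻¹.val) ∧
      (∀ k, TH6.CR.InBlocks ρ C (ψ' k)) ∧
      TH6.CR.IsQuadratic w deg n ((dmU ℤ u).val * d * (dmU ℤ u)⁻¹.val) ψ' ∧
      (∃ t, IsCt (coneDeg deg n)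
          (TH6.CR.cone w deg n ((dmU ℤ u).val * d * (dmU ℤ u)⁻¹.val) ψ') t ∧
        TH6.CR.InBlocks (Sum.elim ρ ρ) C t) ∧
      (∀ k i j, χ k i j ≠ 0 → deg i + deg j + k = n + 1) ∧
      ∀ k, sadj w (dmU ℤ u)⁻¹.val * ψ k * (dmU ℤ u)⁻¹.val
        = ψ' k + TH6.CR.qbd w deg n ((dmU ℤ u).val * d * (dmU ℤ u)⁻¹.val) χ k := by
  obtain ⟨t, ht⟩ := hP
  have hno : ∀ g : G, g = g⁻¹ → g = 1 := fun g hg => h2 g (by
    nth_rewrite 2 [hg]; exact mul_inv_cancel g)
  obtain ⟨ρ, u, C, ψ', χ, s, hC, h1, h2, h3, h4, h5, h6, h7⟩ :=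
    TH6.CR.N510.q_norm2 (half_halver w hno) hψ t ht c hc0 hc hthin
  refine ⟨ρ, u, C, ψ', χ, hC, fun htf b => ?_, h1, h2, h3, ⟨s, h4, h5⟩, h6, h7⟩
  obtain ⟨g, hg⟩ := hC b
  exact isCyclic_of_finiteIndex (fun x k hk hx => Subtype.ext
    (htf x.1 k hk (by simpa using congrArg Subtype.val hx))) (Subgroup.zpowers g) inferInstance hg

end Pool.Agent.Results.MP_c13a79_gt.CriticalPoincareComplexes
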