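import Pool.Agent.N510.LT.Near

set_option autoImplicit false
set_option linter.unusedSectionVars false

/-! The exact critical norm and the exact critical distance from the hyperbolic form for quadratic
forms over integral group rings with the involution twisted by an orientation character. -/

namespace Pool.Agent.Results.MP_c13a79_gt.CriticalTwistedForms

open Matrix

section defs

variable {Γ : Type} [Group Γ]

/-- the adjoint of a matrix over `ℤΓ`, for the involution `g ↦ w(g) g⁻¹` -/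
noncomputable def adjoint (w : Γ →* ℤˣ) {κ μ : Type} (A : Matrix κ μ (MonoidAlgebra ℤ Γ)) :
    Matrix μ κ (MonoidAlgebra ℤ Γ) :=
  Matrix.of fun j i => ∑ g ∈ (A i j).coeff.support, MonoidAlgebra.single g⁻¹ (w g * (A i j).coeff g)

/-- the `ε`-symmetric form `λ = ψ + εψ*` of the `ε`-quadratic form `ψ` -/
noncomputable def symmetrization (w : Γ →* ℤˣ) {κ : Type} (ε : ℤ)
    (ψ : Matrix κ κ (MonoidAlgebra ℤ Γ)) : Matrix κ κ (MonoidAlgebra ℤ Γ) := ψ + ε • adjoint w ψ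

/-- `A` as a matrix over `ℝΓ` -/
noncomputable def realMatrix {κ μ : Type} (A : Matrix κ μ (MonoidAlgebra ℤ Γ)) :
    Matrix κ μ (MonoidAlgebra ℝ Γ) :=
  A.map (MonoidAlgebra.mapRingHom Γ (Int.castRingHom ℝ))

/-- `|A|`: the matrix over `ℝΓ` of the absolute values of the coefficients of `A` -/
noncomputable def absMatrix {κ μ : Type} (A : Matrix κ μ (MonoidAlgebra ℤ Γ)) :
    Matrix κ μ (MonoidAlgebra ℝ Γ) :=
  A.map fun x => MonoidAlgebra.ofCoeff (x.coeff.mapRange (fun n : ℤ => |(n : ℝ)|) (by simp))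

/-- the squared `ℓ²`-norm of a finitely supported vector in `ℓ²(Γ)^κ` -/
noncomputable def normSq {κ : Type} [Fintype κ] (x : κ → MonoidAlgebra ℝ Γ) : ℝ :=
  ∑ i, ∑ g ∈ (x i).coeff.support, (x i).coeff g ^ 2

/-- The operator norm of `B`, acting on the row vectors in `ℓ²(Γ)^κ`, is at most `|c|`. -/
def NormLE {κ μ : Type} [Fintype κ] [Fintype μ] (B : Matrix κ μ (MonoidAlgebra ℝ Γ)) (c : ℝ) :
    Prop := ∀ x : κ → MonoidAlgebra ℝ Γ, normSq (x ᵥ* B) ≤ c ^ 2 * normSq x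

/-- isometry of `ε`-quadratic forms (matrices modulo the matrices `χ - εχ*`) -/
def Isometric (w : Γ →* ℤˣ) {κ : Type} [Fintype κ] [DecidableEq κ] (ε : ℤ)
    (ψ ψ' : Matrix κ κ (MonoidAlgebra ℤ Γ)) : Prop :=
  ∃ (E : (Matrix κ κ (MonoidAlgebra ℤ Γ))ˣ) (χ : Matrix κ κ (MonoidAlgebra ℤ Γ)),
    E.val * ψ * adjoint w E.val = ψ' + (χ - ε • adjoint w χ)

/-- The sum of the planes with `q(x) = a k`, `q(y) = b k` and `λ(x, y) = 1`: the hyperbolic plane for
`a k = b k = 0`, the plane of Arf invariant one for `a k = b k = 1`. -/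
noncomputable def planes {μ : Type} [DecidableEq μ] (a b : μ → ℤ) :
    Matrix (μ ⊕ μ) (μ ⊕ μ) (MonoidAlgebra ℤ Γ) :=
  fromBlocks (diagonal fun k => MonoidAlgebra.single 1 (a k)) 1 0
    (diagonal fun k => MonoidAlgebra.single 1 (b k))

/-- the sum of hyperbolic planes, indexed by `μ` -/
noncomputable def hyperbolic (Γ : Type) [Group Γ] (μ : Type) [DecidableEq μ] :
    Matrix (μ ⊕ μ) (μ ⊕ μ) (MonoidAlgebra ℤ Γ) := planes (fun _ => 0) (fun _ => 0)

/-- `ψ` is, up to the order of the basis, isometric to a sum of planes defined over `ℤ`, which are all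
hyperbolic if `ε = 1`. -/
def Integral (w : Γ →* ℤˣ) (ε : ℤ) {κ : Type} [Fintype κ] [DecidableEq κ]
    (ψ : Matrix κ κ (MonoidAlgebra ℤ Γ)) : Prop :=
  ∃ (m : ℕ) (e : Fin m ⊕ Fin m ≃ κ) (a b : Fin m → ℤ),
    (∀ k, (a k = 0 ∨ a k = 1) ∧ (b k = 0 ∨ b k = 1)) ∧ (ε = 1 → ∀ k, a k = 0 ∧ b k = 0) ∧
    Isometric w ε (ψ.submatrix e e) (planes a b)

end defs

section aux

open TH57.Thr TH6.LF TH6.PF Pool.Agent.N510.LT

variable {Γ : Type} [Group Γ] {κ : Type} [Fintype κ] [DecidableEq κ]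

theorem adjoint_eq (w : Γ →* ℤˣ) {κ μ : Type} (A : Matrix κ μ (MonoidAlgebra ℤ Γ)) :
    adjoint w A = sadj w A := rfl

theorem iso_of {w : Γ →* ℤˣ} {U : Subgroup (MonoidAlgebra ℤ Γ)ˣ} {ε : ℤ}
    {ψ ψ' : Matrix κ κ (MonoidAlgebra ℤ Γ)} (h : GIso w U ε ψ ψ') : Isometric w ε ψ ψ' := by
  obtain ⟨E, χ, _, h2⟩ := h
  exact ⟨E, χ, h2⟩

theorem sym_eq (w : Γ →* ℤˣ) {κ : Type} (ε : ℤ) (ψ : Matrix κ κ (MonoidAlgebra ℤ Γ)) :
    symmetrization w ε ψ = glam w ε ψ := rfl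

theorem absMatrix_eq {κ μ : Type} (A : Matrix κ μ (MonoidAlgebra ℤ Γ)) :
    absMatrix A = toReal (A.map (sz Int.natAbs rfl)) := by
  ext i j g
  simp only [toReal, Matrix.map_apply, MonoidAlgebra.coeff_mapRingHom, coeff_sz]
  change |(((A i j).coeff g : ℤ) : ℝ)| = (((((A i j).coeff g).natAbs : ℕ) : ℤ) : ℝ)
  rw [Int.natCast_natAbs, Int.cast_abs]

theorem norm_iff (A : Matrix κ κ (MonoidAlgebra ℤ Γ)) (c : ℝ) :
    NormLE (absMatrix A) c ↔ TH57.Thr.NormLE (szm Int.natAbs rfl A) c := by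
  rw [absMatrix_eq]
  rfl

theorem hyperbolic_eq {μ : Type} [DecidableEq μ] :
    hyperbolic Γ μ = hyp (MonoidAlgebra ℤ Γ) μ := by
  ext1 x y
  rcases x with x | x <;> rcases y with y | y <;> simp [hyperbolic, planes, hyp]

end aux

open Pool.Agent.N510.LT in
/-- Let `Γ` be a group, `w : Γ → {± 1}` a homomorphism, `ε = ±1`, and `λ_ψ = ψ + εψ*` for
`ε`-quadratic forms `ψ` over `ℤΓ` with the involution `g ↦ w(g) g⁻¹`. (1) If `Γ` has no element of
order two (for instance, if it is a Poincaré duality group), each nonsingular `ψ` such that `|λ_ψ|`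
has operator norm less than `3 / √2`, and each nonsingular `ψ` of even rank such that the operator
norm of `λ_ψ - λ_H`, `H` hyperbolic, is less than `√2`, is isometric to a sum of planes defined over
`ℤ`. (2) For every group `Γ` and every `c > 3 / √2`, each `ψ` is, after adding hyperbolic planes,
isometric to a form `φ` such that `|λ_φ|` has norm at most `c`; and each `ψ` of even rank is, after
adding hyperbolic planes, isometric to a form `φ` such that `|λ_φ - λ_H|` has norm at most `√2`. -/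
theorem result (Γ : Type) [Group Γ] (w : Γ →* ℤˣ) (ε : ℤ) (hε : ε = 1 ∨ ε = -1) :
    ((∀ g : Γ, g * g = 1 → g = 1) →
      (∀ c : ℝ, 0 ≤ c → c < 3 / Real.sqrt 2 →
        ∀ (κ : Type) [Fintype κ] [DecidableEq κ] (ψ : Matrix κ κ (MonoidAlgebra ℤ Γ)),
          IsUnit (symmetrization w ε ψ) → NormLE (absMatrix (symmetrization w ε ψ)) c →
          Integral w ε ψ) ∧
      ∀ c : ℝ, 0 ≤ c → c < Real.sqrt 2 →
        ∀ (κ : Type) [Fintype κ] [DecidableEq κ] (ψ : Matrix (κ ⊕ κ) (κ ⊕ κ) (MonoidAlgebra ℤ Γ)),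
          IsUnit (symmetrization w ε ψ) →
          NormLE (realMatrix (symmetrization w ε ψ - symmetrization w ε (hyperbolic Γ κ))) c →
          Integral w ε ψ) ∧
    (∀ c : ℝ, 3 / Real.sqrt 2 < c →
      ∀ (κ : Type) [Fintype κ] [DecidableEq κ] (ψ : Matrix κ κ (MonoidAlgebra ℤ Γ)),
        ∃ (m : ℕ) (φ : Matrix (κ ⊕ (Fin m ⊕ Fin m)) (κ ⊕ (Fin m ⊕ Fin m)) (MonoidAlgebra ℤ Γ)),
          Isometric w ε (fromBlocks ψ 0 0 (hyperbolic Γ (Fin m))) φ ∧
          NormLE (absMatrix (symmetrization w ε φ)) c) ∧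
    ∀ (κ : Type) [Fintype κ] [DecidableEq κ] (ψ : Matrix (κ ⊕ κ) (κ ⊕ κ) (MonoidAlgebra ℤ Γ)),
      ∃ (m : ℕ) (φ : Matrix ((κ ⊕ κ) ⊕ (Fin m ⊕ Fin m)) ((κ ⊕ κ) ⊕ (Fin m ⊕ Fin m))
        (MonoidAlgebra ℤ Γ)),
        Isometric w ε (fromBlocks ψ 0 0 (hyperbolic Γ (Fin m))) φ ∧
        NormLE (absMatrix (symmetrization w ε φ - symmetrization w ε
            (fromBlocks (hyperbolic Γ κ) 0 0 (hyperbolic Γ (Fin m))))) (Real.sqrt 2) := by
  classical
  have hr0 : 0 < Real.sqrt 2 := Real.sqrt_pos.2 two_pos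
  have hr2 : Real.sqrt 2 ^ 2 = 2 := Real.sq_sqrt two_pos.le
  have h3 : (3 / Real.sqrt 2) ^ 2 = 9 / 2 := by rw [div_pow, hr2]; norm_num
  have h3p : 0 < 3 / Real.sqrt 2 := div_pos (by norm_num) hr0
  refine ⟨fun htf => ⟨fun c hc0 hc κ _ _ ψ hu hN => ?_, fun c hc0 hc κ _ _ ψ hu hN => ?_⟩,
    fun c hc κ _ _ ψ => ?_, fun κ _ _ ψ => ?_⟩
  · set d := (c + 3 / Real.sqrt 2) / 2 with hd
    have hd0 : 0 < d := by positivity
    have hcd : c ≤ d := by rw [hd]; linarith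
    have hd2 : d ^ 2 < 9 / 2 := by
      rw [← h3]
      exact pow_lt_pow_left₀ (by rw [hd]; linarith) hd0.le two_ne_zero
    rw [sym_eq] at hu hN
    have hN' : TH57.Thr.NormLE (szm Int.natAbs rfl (glam w ε ψ)) d := by
      intro x
      refine ((norm_iff _ _).1 hN x).trans (mul_le_mul_of_nonneg_right ?_
        (TH57.Thr.normSq_nonneg x))
      exact pow_le_pow_left₀ hc0 hcd 2
    obtain ⟨m, e, a, b, h1, h2, h4⟩ := int_main w htf hε hd0 hd2 ψ hu hN'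
    exact ⟨m, e, a, b, h1, h2, iso_of h4⟩
  · have hc2 : c ^ 2 < 2 := by
      have h1 : c ^ 2 < Real.sqrt 2 ^ 2 := pow_lt_pow_left₀ hc hc0 two_ne_zero
      rwa [hr2] at h1
    rw [hyperbolic_eq, sym_eq, sym_eq] at hN
    rw [sym_eq] at hu
    obtain ⟨m, e, a, b, h1, h2, h4⟩ := int_near w htf hε hc2 ψ hu hN
    exact ⟨m, e, a, b, h1, h2, iso_of h4⟩
  · have hc0 : 0 < c := h3p.trans hc
    have hc2 : 9 / 2 < c ^ 2 := by
      rw [← h3]
      exact pow_lt_pow_left₀ hc h3p.le two_ne_zero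
    obtain ⟨m, φ, hφ⟩ := int_reduction w hc0 hc2 ψ
    obtain ⟨h1, h2, h4⟩ := hφ ε hε
    refine ⟨m, φ, ?_, ?_⟩
    · rw [hyperbolic_eq]
      exact iso_of h1
    · rw [norm_iff]
      exact h4
  · obtain ⟨m, φ, hφ⟩ := int_dist w ψ
    obtain ⟨h1, h2, h4⟩ := hφ ε hε
    have hH : (fromBlocks (hyperbolic Γ κ) 0 0 (hyperbolic Γ (Fin m)) :
        Matrix ((κ ⊕ κ) ⊕ (Fin m ⊕ Fin m)) ((κ ⊕ κ) ⊕ (Fin m ⊕ Fin m)) (MonoidAlgebra ℤ Γ))
        = TH6.LF.addHyp (Fin m) (TH6.LF.hyp (MonoidAlgebra ℤ Γ) κ) := by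
      rw [hyperbolic_eq, hyperbolic_eq]
      rfl
    refine ⟨m, φ, ?_, ?_⟩
    · rw [hyperbolic_eq]
      exact iso_of h1
    · rw [hH, norm_iff]
      exact h4

end Pool.Agent.Results.MP_c13a79_gt.CriticalTwistedForms
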