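import Pool.Agent.N508.Wh.FormIso

set_option autoImplicit false

/-! # Quadratic forms over integral group rings with two or three terms per row

Let `Γ` be a group and `ε = ±1`. An `ε`-quadratic form over `ℤΓ` is given by a square matrix `ψ`
(modulo the matrices `χ - εχ*`), its symmetrisation is `λ = ψ + εψ*`, and a term of a row of `λ` is a
nonzero coefficient (an arbitrary integer) of an entry of this row.

(1) Two terms. If `Γ` has no element of order two, then each nonsingular `ε`-quadratic form over `ℤΓ`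
whose symmetrisation has at most two terms in each row is, after multiplying the basis vectors by
group elements, a form with integer entries. So the class of this form in `L_{2k}(ℤΓ)` comes from
`L_{2k}(ℤ)`.

(2) Three terms. Let `S` generate `Γ`. Each `ε`-quadratic form over `ℤΓ` is, after adding hyperbolic
planes, simply isometric to a form whose symmetrisation has at most three nonzero entries in each
row, all of the form `± s` with `s = 1`, `s ∈ S` or `s⁻¹ ∈ S`; its diagonal is zero. So the classes of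
these forms are all elements of `L_{2k}(ℤΓ)`. -/

namespace Pool.Agent.Results.MP_c13a79_gt.TwoOrThreeTermForms

open Matrix

section defs

variable {Γ : Type} [Group Γ]

/-- the adjoint (conjugate transpose) of a matrix over `ℤΓ`, for the involution `g ↦ g⁻¹` -/
noncomputable def adjoint {κ μ : Type} (A : Matrix κ μ (MonoidAlgebra ℤ Γ)) :
    Matrix μ κ (MonoidAlgebra ℤ Γ) :=
  Matrix.of fun j i => MonoidAlgebra.mapDomain (fun g => g⁻¹) (A i j)

/-- the `ε`-symmetric form `λ = ψ + εψ*` of the `ε`-quadratic form `ψ` -/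
noncomputable def symmetrization {κ : Type} (ε : ℤ) (ψ : Matrix κ κ (MonoidAlgebra ℤ Γ)) :
    Matrix κ κ (MonoidAlgebra ℤ Γ) := ψ + ε • adjoint ψ

/-- the number of terms (nonzero coefficients of all entries) of a vector over `ℤΓ` -/
def terms {κ : Type} [Fintype κ] (v : κ → MonoidAlgebra ℤ Γ) : ℕ :=
  ∑ i, (v i).coeff.support.card

/-- the square matrix `x` over `ℤΓ` is zero in the Whitehead group: stabilised by an identity block,
it is `± g` on one diagonal entry times a product of commutators of invertible matrices -/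
def ZeroInWh {κ : Type} [Fintype κ] [DecidableEq κ]
    (x : Matrix κ κ (MonoidAlgebra ℤ Γ)) : Prop :=
  ∃ (m : ℕ) (g : Γ) (ε : ℤˣ)
    (C : (Matrix (κ ⊕ Fin (m + 1)) (κ ⊕ Fin (m + 1)) (MonoidAlgebra ℤ Γ))ˣ),
    C ∈ commutator (Matrix (κ ⊕ Fin (m + 1)) (κ ⊕ Fin (m + 1)) (MonoidAlgebra ℤ Γ))ˣ ∧
    Matrix.fromBlocks x 0 0 (1 : Matrix (Fin (m + 1)) (Fin (m + 1)) (MonoidAlgebra ℤ Γ)) =
      Matrix.diagonal (fun i : κ ⊕ Fin (m + 1) =>
          if i = Sum.inr (0 : Fin (m + 1)) then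
            (MonoidAlgebra.single g ((ε : ℤ)) : MonoidAlgebra ℤ Γ) else 1) *
        (↑C : Matrix (κ ⊕ Fin (m + 1)) (κ ⊕ Fin (m + 1)) (MonoidAlgebra ℤ Γ))

/-- simple isometry of `ε`-quadratic forms (matrices modulo the matrices `χ - εχ*`) -/
def SimplyIsometric {κ : Type} [Fintype κ] [DecidableEq κ] (ε : ℤ)
    (ψ ψ' : Matrix κ κ (MonoidAlgebra ℤ Γ)) : Prop :=
  ∃ (E : (Matrix κ κ (MonoidAlgebra ℤ Γ))ˣ) (χ : Matrix κ κ (MonoidAlgebra ℤ Γ)),
    ZeroInWh E.val ∧ E.val * ψ * adjoint E.val = ψ' + (χ - ε • adjoint χ)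

/-- the sum of `k` hyperbolic planes -/
noncomputable def hyperbolic (Γ : Type) [Group Γ] (k : ℕ) :
    Matrix (Fin k ⊕ Fin k) (Fin k ⊕ Fin k) (MonoidAlgebra ℤ Γ) := fromBlocks 0 1 0 0

end defs

section aux

open TH57.Thr TH6.LF TH6.CX Pool.Agent.Y75.Th Pool.Agent.Y35.KC.TTm Pool.Agent.R719.DD
  Pool.Agent.R719.LF Pool.Agent.R472.Grid Pool.Agent.N508.Wh

variable {Γ : Type} [Group Γ] {κ : Type} [Fintype κ] [DecidableEq κ]

theorem simple_of_iso {ε : ℤ} {ψ ψ' : Matrix κ κ (MonoidAlgebra ℤ Γ)} (h : Iso ε ψ ψ') :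
    SimplyIsometric ε ψ ψ' := by
  obtain ⟨E, χ, h1, h2⟩ := h
  exact ⟨E, χ, TT_explicit E h1, h2⟩

theorem two (htf : ∀ g : Γ, g * g = 1 → g = 1) {ε : ℤ} (hε : ε = 1 ∨ ε = -1)
    (ψ : Matrix κ κ (MonoidAlgebra ℤ Γ)) (hu : IsUnit (symmetrization ε ψ))
    (h2 : ∀ i, terms (symmetrization ε ψ i) ≤ 2) :
    ∃ (u : κ → Γ) (ψ₀ : Matrix κ κ ℤ) (χ : Matrix κ κ (MonoidAlgebra ℤ Γ)),
      IsUnit (ψ₀ + ε • ψ₀ᵀ) ∧
      (∀ i j, MonoidAlgebra.single (u i) 1 * ψ i j * MonoidAlgebra.single (u j)⁻¹ 1 =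
        MonoidAlgebra.single 1 (ψ₀ i j) + (χ - ε • adjoint χ) i j) ∧
      SimplyIsometric ε ψ (ψ₀.map (MonoidAlgebra.single 1)) := by
  obtain ⟨u, ψ₀, χ, h⟩ := form_gauge htf hε ψ hu h2
  have hiso : (dgs u (fun _ => 1) (fun _ => by norm_num)).val * ψ *
      adjoint (dgs u (fun _ => 1) (fun _ => by norm_num)).val =
      ψ₀.map (MonoidAlgebra.single 1) + (χ - ε • adjoint χ) := by
    have e1 : adjoint (dgs u (fun _ => 1) (fun _ => by norm_num)).val =
        (Matrix.diagonal (fun i => MonoidAlgebra.single (u i)⁻¹ (1 : ℤ)) :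
          Matrix κ κ (MonoidAlgebra ℤ Γ)) := by
      ext1 i j
      change bar ((Matrix.diagonal (fun i => MonoidAlgebra.single (u i) (1 : ℤ)) :
        Matrix κ κ (MonoidAlgebra ℤ Γ)) j i) = _
      by_cases hij : i = j
      · subst hij
        rw [Matrix.diagonal_apply_eq, Matrix.diagonal_apply_eq, bar_sg]
      · rw [Matrix.diagonal_apply_ne _ hij, Matrix.diagonal_apply_ne _ (Ne.symm hij)]
        exact bar_zero
    rw [e1]
    ext1 i j
    change ((Matrix.diagonal (fun i => MonoidAlgebra.single (u i) (1 : ℤ)) :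
        Matrix κ κ (MonoidAlgebra ℤ Γ)) * ψ *
        (Matrix.diagonal (fun i => MonoidAlgebra.single (u i)⁻¹ (1 : ℤ)) :
        Matrix κ κ (MonoidAlgebra ℤ Γ))) i j = _
    rw [Matrix.mul_diagonal, Matrix.diagonal_mul, h]
    rfl
  refine ⟨u, ψ₀, χ, ?_, h, ?_⟩
  · -- the augmentation of the symmetrisation is congruent to the integral form
    have h3 : (augZ (Γ := Γ)).mapMatrix (symmetrization ε ψ) = ψ₀ + ε • ψ₀ᵀ := by
      ext1 i j
      change augZ (ψ i j + ε • bar (ψ j i)) = ψ₀ i j + ε • ψ₀ j i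
      have h4 : ∀ i j, augZ (ψ i j) = ψ₀ i j + (augZ (χ i j) - ε * augZ (χ j i)) := by
        intro i j
        have h5 := congrArg (augZ (Γ := Γ)) (h i j)
        rw [map_mul, map_mul, aug_sg, aug_sg, map_add, aug_sg, map_sub, map_zsmul,
          augZ_bar] at h5
        simpa using h5
      rw [map_add, map_zsmul, augZ_bar, h4 i j, h4 j i]
      rcases hε with rfl | rfl <;> simp only [smul_eq_mul] <;> ring
    rw [← h3]
    exact hu.map _
  · exact ⟨_, χ, TT_explicit _ (TT_of_mem _ _ (dgs_mem _ _ _)), hiso⟩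

theorem three (S : Set Γ) (hS : Subgroup.closure S = ⊤) {ε : ℤ} (hε : ε = 1 ∨ ε = -1) {n : ℕ}
    (ψ : Matrix (Fin n) (Fin n) (MonoidAlgebra ℤ Γ)) :
    ∃ (k : ℕ) (φ : Matrix (Fin n ⊕ (Fin k ⊕ Fin k)) (Fin n ⊕ (Fin k ⊕ Fin k))
        (MonoidAlgebra ℤ Γ)),
        SimplyIsometric ε (fromBlocks ψ 0 0 (hyperbolic Γ k)) φ ∧
        (∀ i, terms (symmetrization ε φ i) ≤ 3) ∧ (∀ i, φ i i = 0) ∧
        ∀ i j, symmetrization ε φ i j = 0 ∨ ∃ s : Γ, (s = 1 ∨ s ∈ S ∨ s⁻¹ ∈ S) ∧
          (symmetrization ε φ i j = MonoidAlgebra.single s 1 ∨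
            symmetrization ε φ i j = MonoidAlgebra.single s (-1)) := by
  classical
  obtain ⟨k, φ, h1, h2, h3, h4⟩ := form_three ε
    (G := {x : MonoidAlgebra ℤ Γ | ∃ s : Γ, (s = 1 ∨ s ∈ S ∨ s⁻¹ ∈ S) ∧
      (x = MonoidAlgebra.single s 1 ∨ x = MonoidAlgebra.single s (-1))})
    ⟨1, Or.inl rfl, Or.inl MonoidAlgebra.one_def⟩
    (by
      rintro x ⟨s, hs, h⟩
      refine ⟨s, hs, ?_⟩
      rcases h with rfl | rfl
      · exact Or.inr (MonoidAlgebra.single_neg _ _).symm
      · left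
        rw [← MonoidAlgebra.single_neg, neg_neg])
    (genBy S hS) ψ
  have hv : ∀ i j, symmetrization ε φ i j = 0 ∨ ∃ s : Γ, (s = 1 ∨ s ∈ S ∨ s⁻¹ ∈ S) ∧
      (symmetrization ε φ i j = MonoidAlgebra.single s 1 ∨
        symmetrization ε φ i j = MonoidAlgebra.single s (-1)) := by
    intro i j
    have e1 : symmetrization ε φ i j = φ i j + ε • bar (φ j i) := rfl
    rw [e1]
    rcases h3 i j with h | h
    · rw [h, zero_add]
      rcases h2 j i with h' | ⟨s, hs, h'⟩
      · left; rw [h', bar_zero, smul_zero]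
      · right
        refine ⟨s⁻¹, ?_, ?_⟩
        · rcases hs with hs | hs | hs
          · left; rw [hs, inv_one]
          · right; right; rwa [inv_inv]
          · right; left; exact hs
        · rcases h' with h' | h' <;> rcases hε with rfl | rfl <;> rw [h', bar_sg] <;>
            simp [← MonoidAlgebra.single_neg]
    · rw [h, bar_zero, smul_zero, add_zero]
      exact h2 i j
  refine ⟨k, φ, simple_of_iso h1, fun i => ?_, fun i => ?_, hv⟩
  · have e1 : ∀ j, (symmetrization ε φ i j).coeff.support.card ≤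
        if symmetrization ε φ i j ≠ 0 then 1 else 0 := by
      intro j
      by_cases h : symmetrization ε φ i j = 0
      · rw [h]; simp
      · rw [if_pos h]
        rcases hv i j with h' | ⟨s, _, h'⟩
        · exact absurd h' h
        · rcases h' with h' | h' <;> rw [h'] <;>
            exact (Finset.card_le_card Finsupp.support_single_subset).trans (by simp)
    unfold terms
    refine (Finset.sum_le_sum fun j _ => e1 j).trans ?_
    rw [Finset.sum_ite, Finset.sum_const_zero, add_zero, Finset.sum_const, smul_eq_mul, mul_one]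
    have e2 := h4 i
    rw [Set.ncard_eq_toFinset_card'] at e2
    refine (Finset.card_le_card ?_).trans e2
    intro j hj
    rw [Finset.mem_filter] at hj
    rw [Set.mem_toFinset]
    by_contra h5
    rw [Set.mem_ofPred_eq, not_or, not_not, not_not] at h5
    apply hj.2
    change φ i j + ε • bar (φ j i) = 0
    rw [h5.1, h5.2, bar_zero, smul_zero, add_zero]
  · rcases h3 i i with h | h <;> exact h

end aux

/-- **Forms with two or three terms in each row.** -/
theorem result (Γ : Type) [Group Γ] (ε : ℤ) (hε : ε = 1 ∨ ε = -1) :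
    ((∀ g : Γ, g * g = 1 → g = 1) →
      ∀ (κ : Type) [Fintype κ] [DecidableEq κ] (ψ : Matrix κ κ (MonoidAlgebra ℤ Γ)),
        IsUnit (symmetrization ε ψ) → (∀ i, terms (symmetrization ε ψ i) ≤ 2) →
        ∃ (u : κ → Γ) (ψ₀ : Matrix κ κ ℤ) (χ : Matrix κ κ (MonoidAlgebra ℤ Γ)),
          IsUnit (ψ₀ + ε • ψ₀ᵀ) ∧
          (∀ i j, MonoidAlgebra.single (u i) 1 * ψ i j * MonoidAlgebra.single (u j)⁻¹ 1 =
            MonoidAlgebra.single 1 (ψ₀ i j) + (χ - ε • adjoint χ) i j) ∧
          SimplyIsometric ε ψ (ψ₀.map (MonoidAlgebra.single 1))) ∧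
    ∀ S : Set Γ, Subgroup.closure S = ⊤ → ∀ (n : ℕ) (ψ : Matrix (Fin n) (Fin n) (MonoidAlgebra ℤ Γ)),
      ∃ (k : ℕ) (φ : Matrix (Fin n ⊕ (Fin k ⊕ Fin k)) (Fin n ⊕ (Fin k ⊕ Fin k))
        (MonoidAlgebra ℤ Γ)),
        SimplyIsometric ε (fromBlocks ψ 0 0 (hyperbolic Γ k)) φ ∧
        (∀ i, terms (symmetrization ε φ i) ≤ 3) ∧ (∀ i, φ i i = 0) ∧
        ∀ i j, symmetrization ε φ i j = 0 ∨ ∃ s : Γ, (s = 1 ∨ s ∈ S ∨ s⁻¹ ∈ S) ∧
          (symmetrization ε φ i j = MonoidAlgebra.single s 1 ∨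
            symmetrization ε φ i j = MonoidAlgebra.single s (-1)) := by
  refine ⟨fun htf κ _ _ ψ hu h2 => two htf hε ψ hu h2, fun S hS n ψ => ?_⟩
  exact three S hS hε ψ

end Pool.Agent.Results.MP_c13a79_gt.TwoOrThreeTermForms
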